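import Mathlib

set_option autoImplicit false

/-!
# The Aharoni-Zerbib conjecture for 3-uniform hypergraphs without a double core

`τ⁽²⁾ ≤ 2 ν⁽²⁾` holds for every 3-uniform hypergraph in which every nonempty subfamily has an edge with a pair in no
other member of the subfamily (for instance when the 2-dimensional complex of the edges collapses to a graph), or an edge
`e` such that two pairs cover all members of the subfamily that share a pair with `e`.
-/

namespace Pool.Agent.Results.MP_3ed636_co.NoDoubleCore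

/-- some 2-element sets `P` cover `H`, some edges `M` of `H` pairwise share at most one vertex, and `|P| ≤ 2 |M|` -/
def Good {V : Type*} [DecidableEq V] (H : Finset (Finset V)) : Prop :=
  ∃ P M : Finset (Finset V), (∀ p ∈ P, p.card = 2) ∧ (∀ e ∈ H, ∃ p ∈ P, p ⊆ e) ∧ M ⊆ H ∧
    (∀ e ∈ M, ∀ f ∈ M, e ≠ f → (e ∩ f).card ≤ 1) ∧ P.card ≤ 2 * M.card

theorem main {V : Type*} [DecidableEq V] (H : Finset (Finset V)) (h3 : ∀ e ∈ H, e.card = 3)
    (hH : ∀ F ⊆ H, F.Nonempty → ∃ e ∈ F, ∃ p q : Finset V, p.card = 2 ∧ q.card = 2 ∧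
      ∀ f ∈ F, 2 ≤ (e ∩ f).card → p ⊆ f ∨ q ⊆ f) : Good H := by
  classical
  induction hn : H.card using Nat.strong_induction_on generalizing H with
  | _ n ih =>
  rcases H.eq_empty_or_nonempty with rfl | hne
  · exact ⟨∅, ∅, by simp, by simp, by simp, by simp, by simp⟩
  obtain ⟨e, he, p, q, hp, hq, hpq⟩ := hH H (Finset.Subset.refl _) hne
  set F := H.filter (fun f => (e ∩ f).card ≤ 1) with hF
  have hFH : F ⊆ H := Finset.filter_subset _ _
  have heF : e ∉ F := by
    rw [hF, Finset.mem_filter]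
    rintro ⟨_, h⟩
    rw [Finset.inter_self, h3 e he] at h
    omega
  have hlt : F.card < n := by
    rw [← hn]
    exact Finset.card_lt_card ⟨hFH, fun h => heF (h he)⟩
  obtain ⟨P, M, h2, hc, hM, hpk, hcard⟩ := ih F.card hlt F (fun f hf => h3 f (hFH hf))
    (fun G hG => hH G (hG.trans hFH)) rfl
  refine ⟨insert p (insert q P), insert e M, ?_, ?_, ?_, ?_, ?_⟩
  · intro r hr
    rw [Finset.mem_insert, Finset.mem_insert] at hr
    rcases hr with rfl | rfl | hr
    · exact hp
    · exact hq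
    · exact h2 r hr
  · intro f hf
    by_cases h : (e ∩ f).card ≤ 1
    · obtain ⟨r, hr, hrf⟩ := hc f (Finset.mem_filter.2 ⟨hf, h⟩)
      exact ⟨r, by simp [hr], hrf⟩
    · rcases hpq f hf (by omega) with h | h
      · exact ⟨p, by simp, h⟩
      · exact ⟨q, by simp, h⟩
  · intro f hf
    rcases Finset.mem_insert.1 hf with rfl | hf
    · exact he
    · exact hFH (hM hf)
  · intro f hf g hg hfg
    rcases Finset.mem_insert.1 hf with rfl | hf' <;> rcases Finset.mem_insert.1 hg with rfl | hg'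
    · exact absurd rfl hfg
    · exact (Finset.mem_filter.1 (hM hg')).2
    · rw [Finset.inter_comm]
      exact (Finset.mem_filter.1 (hM hf')).2
    · exact hpk f hf' g hg' hfg
  · have h1 : (insert e M).card = M.card + 1 := Finset.card_insert_of_notMem (fun h => heF (hM h))
    have h4 := Finset.card_insert_le p (insert q P)
    have h5 := Finset.card_insert_le q P
    omega

theorem two_pairs {V : Type*} [DecidableEq V] (F : Finset (Finset V)) (e : Finset V) (he : e ∈ F)
    (hec : e.card = 3) (p : Finset V) (hpe : p ⊆ e) (hp : p.card = 2) (hpriv : ∀ f ∈ F, p ⊆ f → f = e) :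
    ∃ p q : Finset V, p.card = 2 ∧ q.card = 2 ∧ ∀ f ∈ F, 2 ≤ (e ∩ f).card → p ⊆ f ∨ q ⊆ f := by
  classical
  obtain ⟨a, b, hab, rfl⟩ := Finset.card_eq_two.1 hp
  obtain ⟨c, hc, hcn⟩ : ∃ c ∈ e, c ∉ ({a, b} : Finset V) := by
    by_contra hcon
    push Not at hcon
    have := Finset.card_le_card (show e ⊆ {a, b} from hcon)
    omega
  have hca : c ≠ a := fun h => hcn (by simp [h])
  have hcb : c ≠ b := fun h => hcn (by simp [h])
  have hae : a ∈ e := hpe (by simp)
  have hbe : b ∈ e := hpe (by simp)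
  have heq : e = {a, b, c} := by
    symm
    apply Finset.eq_of_subset_of_card_le
    · intro x hx
      simp only [Finset.mem_insert, Finset.mem_singleton] at hx
      rcases hx with rfl | rfl | rfl <;> assumption
    · rw [hec, Finset.card_eq_three.2 ⟨a, b, c, hab, hca.symm, hcb.symm, rfl⟩]
  refine ⟨{a, c}, {b, c}, Finset.card_pair hca.symm, Finset.card_pair hcb.symm, ?_⟩
  intro f hf h2
  by_cases hfe : f = e
  · left
    rw [hfe]
    intro x hx
    simp only [Finset.mem_insert, Finset.mem_singleton] at hx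
    rcases hx with rfl | rfl <;> assumption
  · have hnot : ¬ (a ∈ f ∧ b ∈ f) := by
      rintro ⟨ha, hb⟩
      apply hfe
      apply hpriv f hf
      intro x hx
      simp only [Finset.mem_insert, Finset.mem_singleton] at hx
      rcases hx with rfl | rfl <;> assumption
    obtain ⟨x, y, hxy, hs⟩ : ∃ x y : V, x ≠ y ∧ x ∈ e ∩ f ∧ y ∈ e ∩ f := by
      obtain ⟨x, hx, y, hy, hxy⟩ := Finset.one_lt_card.1 (show 1 < (e ∩ f).card by omega)
      exact ⟨x, y, hxy, hx, hy⟩
    obtain ⟨hx, hy⟩ := hs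
    rw [Finset.mem_inter, heq] at hx hy
    simp only [Finset.mem_insert, Finset.mem_singleton] at hx hy
    have key : c ∈ f ∧ (a ∈ f ∨ b ∈ f) := by
      obtain ⟨hx1, hx2⟩ := hx
      obtain ⟨hy1, hy2⟩ := hy
      rcases hx1 with h1 | h1 | h1 <;> rcases hy1 with h2 | h2 | h2 <;> rw [h1] at hx2 <;> rw [h2] at hy2 <;>
        first
        | exact absurd (h1.trans h2.symm) hxy
        | tauto
    rcases key with ⟨hcf, haf | hbf⟩
    · left
      intro x hx
      simp only [Finset.mem_insert, Finset.mem_singleton] at hx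
      rcases hx with rfl | rfl <;> assumption
    · right
      intro x hx
      simp only [Finset.mem_insert, Finset.mem_singleton] at hx
      rcases hx with rfl | rfl <;> assumption

theorem result {V : Type*} [DecidableEq V] (H : Finset (Finset V)) (h3 : ∀ e ∈ H, e.card = 3)
    (hH : ∀ F ⊆ H, F.Nonempty → ∃ e ∈ F,
      (∃ p ⊆ e, p.card = 2 ∧ ∀ f ∈ F, p ⊆ f → f = e) ∨
      (∃ p q : Finset V, p.card = 2 ∧ q.card = 2 ∧ ∀ f ∈ F, 2 ≤ (e ∩ f).card → p ⊆ f ∨ q ⊆ f)) :
    ∃ P M : Finset (Finset V), (∀ p ∈ P, p.card = 2) ∧ (∀ e ∈ H, ∃ p ∈ P, p ⊆ e) ∧ M ⊆ H ∧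
      (∀ e ∈ M, ∀ f ∈ M, e ≠ f → (e ∩ f).card ≤ 1) ∧ P.card ≤ 2 * M.card := by
  classical
  refine main H h3 fun F hF hne => ?_
  obtain ⟨e, he, ⟨p, hpe, hp, hpriv⟩ | h⟩ := hH F hF hne
  · exact ⟨e, he, two_pairs F e he (h3 e (hF he)) p hpe hp hpriv⟩
  · exact ⟨e, he, h⟩

end Pool.Agent.Results.MP_3ed636_co.NoDoubleCore
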